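import Pool.Agent.H1.WN.Fr

set_option autoImplicit false

/-!
# Normal order of the number of small prime factors of `k 2^k - 1`, from the frames
-/

namespace Pool.Agent.H1.WN

open Finset Pool.Agent.H5.WD

theorem P_mono {z0 z : ℝ} (h : z0 ≤ z) : P z0 ⊆ P z := by
  intro p hp
  rw [mem_P] at hp ⊢
  exact ⟨hp.1.trans (Nat.floor_le_floor h), hp.2⟩

theorem asm (hM : MertStmt) (hF : FmStmt) (α θ : ℝ) (hα : 0 < α) (hθ : θ < 2 / 3) :
    ∃ (C : ℝ) (X0 : ℕ), 0 < C ∧ ∀ X : ℕ, X0 ≤ X → ∀ z : ℝ, (X : ℝ) ^ α ≤ z → z ≤ (X : ℝ) ^ θ →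
      ∀ ξ : ℝ, 1 ≤ ξ → ξ ^ 2 ≤ Real.log (Real.log X) →
      (((range X).filter fun k => ξ * Real.sqrt (Real.log (Real.log X)) <
        |∑ p ∈ P z, hi {p} k - Real.log (Real.log X)|).card : ℝ) ≤ C * X / ξ ^ 2 := by
  obtain ⟨CM, hCM, hM⟩ := hM
  obtain ⟨CF, hCF, hF⟩ := hF θ hθ
  obtain ⟨C1, hC1, hTK⟩ := tk (3 / 10) (by norm_num)
  obtain ⟨β, hβ0, hβα, hβ3⟩ : ∃ β : ℝ, 0 < β ∧ β ≤ α ∧ β ≤ 3 / 10 :=
    ⟨min α (3 / 10), lt_min hα (by norm_num), min_le_left _ _, min_le_right _ _⟩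
  set C2 := CM + |Real.log β| with hC2
  have hC20 : 0 < C2 := by positivity
  refine ⟨9 * C1 * (1 + C2) + 3 * (2 * C2 + CF) + 9 * C2 ^ 2, ⌈(3 : ℝ) ^ (1 / β)⌉₊ + 16, by positivity, ?_⟩
  intro X hX z hz1 hz2 ξ hξ hξ2
  set L := Real.log (Real.log X) with hL
  have hL1 : 1 ≤ L := by nlinarith
  have hX16 : (16 : ℝ) ≤ X := by
    have : 16 ≤ X := by omega
    exact_mod_cast this
  have hX1 : (1 : ℝ) ≤ X := by linarith
  have hX3 : (3 : ℝ) ≤ (X : ℝ) ^ β := by
    have h1 : (3 : ℝ) ^ (1 / β) ≤ X := by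
      refine (Nat.le_ceil _).trans ?_
      have : ⌈(3 : ℝ) ^ (1 / β)⌉₊ ≤ X := by omega
      exact_mod_cast this
    have h2 := Real.rpow_le_rpow (by positivity) h1 hβ0.le
    rwa [← Real.rpow_mul (by norm_num), one_div_mul_cancel hβ0.ne', Real.rpow_one] at h2
  set z0 : ℝ := (X : ℝ) ^ β with hz0
  have hz0z : z0 ≤ z := (Real.rpow_le_rpow_of_exponent_le hX1 hβα).trans hz1
  have hzX : z ≤ X := by
    refine hz2.trans ?_
    have := Real.rpow_le_rpow_of_exponent_le hX1 (show θ ≤ 1 by linarith)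
    rwa [Real.rpow_one] at this
  have hlogX : 0 < Real.log X := Real.log_pos (by linarith)
  have hll : Real.log (Real.log z0) = Real.log β + L := by
    rw [hz0, Real.log_rpow (by linarith), Real.log_mul hβ0.ne' hlogX.ne']
  set A := ∑ p ∈ P z0, 1 / (p : ℝ) with hA
  have hAM := hM z0 hX3
  rw [hll, ← hA] at hAM
  have hβabs1 := le_abs_self (Real.log β)
  have hβabs2 := neg_abs_le (Real.log β)
  have hAL : |A - L| ≤ C2 := by
    rw [abs_le] at hAM ⊢
    constructor <;> linarith [hAM.1, hAM.2]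
  have hdiff : ∑ p ∈ P z, 1 / (p : ℝ) - A ≤ 2 * C2 := by
    have h1 := (abs_le.1 (hM z (hX3.trans hz0z))).2
    have h2 := (abs_le.1 hAM).1
    have h3 : Real.log (Real.log z) ≤ L := by
      have hlz : 0 < Real.log z := Real.log_pos (by linarith)
      exact Real.log_le_log hlz (Real.log_le_log (by linarith) hzX)
    linarith
  have hX1' : 1 ≤ X := by omega
  have hTK1 := hTK X z0 hX1' (Real.rpow_le_rpow_of_exponent_le hX1 hβ3) (fun _ => 1)
  simp only [one_mul, one_pow] at hTK1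
  rw [← hA] at hTK1
  have hF1 := hF X z z0 hX1' hz0z hz2
  rw [← hA] at hF1
  set W : ℕ → ℝ := fun k => ∑ p ∈ P z, hi {p} k with hW
  set W0 : ℕ → ℝ := fun k => ∑ p ∈ P z0, hi {p} k with hW0
  have hWW : ∀ k, W0 k ≤ W k := fun k =>
    Finset.sum_le_sum_of_subset_of_nonneg (P_mono hz0z) fun p _ _ => hi_nonneg _ _
  set Φ : ℕ → ℝ := fun k => 9 * (W0 k - A) ^ 2 / L + 3 * (W k - W0 k) + 9 * C2 ^ 2 with hΦ
  have hΦ0 : ∀ k, 0 ≤ Φ k := by
    intro k
    have h1 := hWW k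
    have h2 : 0 ≤ 9 * (W0 k - A) ^ 2 / L := by positivity
    have h3 : 0 ≤ 9 * C2 ^ 2 := by positivity
    simp only [hΦ]
    linarith
  have hsq : Real.sqrt L ^ 2 = L := Real.sq_sqrt (by linarith)
  have hsq0 : 0 ≤ Real.sqrt L := Real.sqrt_nonneg _
  have hξL : ξ ≤ Real.sqrt L := Real.le_sqrt_of_sq_le hξ2
  have hkey : ∀ k ∈ (range X).filter (fun k => ξ * Real.sqrt L < |W k - L|), ξ ^ 2 ≤ Φ k := by
    intro k hk
    have hk2 := (mem_filter.1 hk).2
    by_contra hcon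
    push Not at hcon
    have hw := hWW k
    simp only [hΦ] at hcon
    have t1 : 0 ≤ 9 * (W0 k - A) ^ 2 / L := by positivity
    have t3 : 0 ≤ 9 * C2 ^ 2 := by positivity
    have a1 : |W0 k - A| ≤ ξ * Real.sqrt L / 3 := by
      have h1 : 9 * (W0 k - A) ^ 2 / L ≤ ξ ^ 2 := by linarith
      rw [div_le_iff₀ (by linarith)] at h1
      have h2 : (W0 k - A) ^ 2 ≤ (ξ * Real.sqrt L / 3) ^ 2 := by
        rw [div_pow, mul_pow, hsq]
        linarith
      exact abs_le.2 (abs_le_of_sq_le_sq' h2 (by positivity))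
    have a2 : W k - W0 k < ξ * Real.sqrt L / 3 := by
      have h1 : 3 * (W k - W0 k) < ξ ^ 2 := by linarith
      have h2 : ξ ^ 2 ≤ ξ * Real.sqrt L := by
        rw [pow_two]
        exact mul_le_mul_of_nonneg_left hξL (by linarith)
      linarith
    have a3 : C2 < ξ * Real.sqrt L / 3 := by
      have h1 : 9 * C2 ^ 2 < ξ ^ 2 := by linarith
      have h2 : 3 * C2 < ξ := by nlinarith
      have h3 : 1 ≤ Real.sqrt L := hξ.trans hξL
      nlinarith
    have : |W k - L| ≤ |W0 k - A| + (W k - W0 k) + |A - L| := by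
      have e : W k - L = (W0 k - A) + (W k - W0 k) + (A - L) := by ring
      rw [e]
      refine (abs_add_le _ _).trans (add_le_add ((abs_add_le _ _).trans ?_) le_rfl)
      rw [abs_of_nonneg (show 0 ≤ W k - W0 k by linarith)]
    linarith
  have hsum : ∑ k ∈ range X, Φ k ≤
      (9 * C1 * (1 + C2) + 3 * (2 * C2 + CF) + 9 * C2 ^ 2) * X := by
    simp only [hΦ]
    rw [Finset.sum_add_distrib, Finset.sum_add_distrib, ← Finset.sum_div, ← Finset.mul_sum,
      ← Finset.mul_sum, Finset.sum_const, Finset.card_range, nsmul_eq_mul]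
    have hXpos : (0 : ℝ) < X := by linarith
    have hAle : A ≤ L + C2 := by linarith [(abs_le.1 hAL).2]
    have b1 : 9 * ∑ k ∈ range X, (W0 k - A) ^ 2 ≤ 9 * (C1 * X * (L + C2)) := by
      refine mul_le_mul_of_nonneg_left (hTK1.trans ?_) (by norm_num)
      exact mul_le_mul_of_nonneg_left hAle (by positivity)
    have b2 : 9 * ∑ k ∈ range X, (W0 k - A) ^ 2 / L ≤ 9 * C1 * (1 + C2) * X := by
      have h5 : 9 * ∑ k ∈ range X, (W0 k - A) ^ 2 / L = (9 * ∑ k ∈ range X, (W0 k - A) ^ 2) / L := by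
        rw [← Finset.sum_div]
        ring
      rw [h5, div_le_iff₀ (by linarith)]
      have h6 : L + C2 ≤ (1 + C2) * L := by nlinarith
      have h7 : C1 * X * (L + C2) ≤ C1 * X * ((1 + C2) * L) :=
        mul_le_mul_of_nonneg_left h6 (by positivity)
      nlinarith
    have b3 : 3 * ∑ k ∈ range X, (W k - W0 k) ≤ 3 * (2 * C2 + CF) * X := by
      have h8 : (X : ℝ) * (∑ p ∈ P z, 1 / (p : ℝ) - A) ≤ X * (2 * C2) :=
        mul_le_mul_of_nonneg_left hdiff hXpos.le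
      have h9 : ∑ k ∈ range X, (W k - W0 k) ≤
        X * (∑ p ∈ P z, 1 / (p : ℝ) - A) + CF * X := hF1
      nlinarith
    have b4 : 9 * (∑ k ∈ range X, (W0 k - A) ^ 2) / L = 9 * ∑ k ∈ range X, (W0 k - A) ^ 2 / L := by
      rw [← Finset.sum_div]
      ring
    linarith
  have hcard : (((range X).filter fun k => ξ * Real.sqrt L < |W k - L|).card : ℝ) * ξ ^ 2 ≤
      ∑ k ∈ range X, Φ k := by
    have h1 := Finset.card_nsmul_le_sum _ _ _ hkey
    rw [nsmul_eq_mul] at h1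
    exact h1.trans (Finset.sum_le_sum_of_subset_of_nonneg (Finset.filter_subset _ _)
      fun k _ _ => hΦ0 k)
  rw [le_div_iff₀ (by positivity)]
  exact hcard.trans hsum

end Pool.Agent.H1.WN
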