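import Pool.Agent.H1.WN.Fr

set_option autoImplicit false

/-!
# First moment of the number of prime factors of `k 2^k - 1` between `z0` and `z ≤ X^θ`, `θ < 2/3`
-/

namespace Pool.Agent.H1.WN

open Finset Pool.Agent.H5.WD

theorem P_mono_fm {z0 z : ℝ} (h : z0 ≤ z) : P z0 ⊆ P z := by
  intro p hp
  rw [mem_P] at hp ⊢
  exact ⟨hp.1.trans (Nat.floor_le_floor h), hp.2⟩

theorem fm : FmStmt := by
  classical
  intro θ hθ
  obtain ⟨θ', hθθ', hθ'1, hθ'2⟩ : ∃ θ' : ℝ, θ ≤ θ' ∧ 1 / 2 ≤ θ' ∧ θ' < 2 / 3 :=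
    ⟨max θ (1 / 2), le_max_left _ _, le_max_right _ _, max_lt hθ (by norm_num)⟩
  have hκ : 1 / 2 < 1 / θ' - 1 := by
    have h1 : 3 / 2 < 1 / θ' := by
      rw [lt_div_iff₀ (by linarith)]
      linarith
    linarith
  obtain ⟨κ, hκe⟩ : ∃ κ, κ = 1 / θ' - 1 := ⟨_, rfl⟩
  rw [← hκe] at hκ
  have hκθ : θ' * (κ + 1) = 1 := by
    rw [hκe]
    field_simp
    ring
  obtain ⟨C, hC, hL⟩ := lev_half κ hκ
  refine ⟨C, hC, ?_⟩
  intro X z z0 hX hz0 hz
  have hX1 : (1 : ℝ) ≤ X := by exact_mod_cast hX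
  have hsub := P_mono_fm hz0
  obtain ⟨T, hT⟩ : ∃ T, T = P z \ P z0 := ⟨_, rfl⟩
  have hTP : T ⊆ P z := by rw [hT]; exact Finset.sdiff_subset
  have e1 : ∀ g : ℕ → ℝ, ∑ p ∈ P z, g p - ∑ p ∈ P z0, g p = ∑ p ∈ T, g p := by
    intro g
    rw [hT, ← Finset.sum_sdiff hsub]
    ring
  simp only [e1]
  rw [Finset.sum_comm, Finset.mul_sum]
  have hp : ∀ p ∈ T, ∑ k ∈ range X, hi {p} k ≤ X * (1 / (p : ℝ)) + C * (p : ℝ) ^ κ := by
    intro p hp
    have hpP := (mem_P.1 (hTP hp)).2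
    have h3 := hL {p} (by intro q hq; rw [Finset.mem_singleton] at hq; rw [hq]; exact hpP) X
    rw [Finset.prod_singleton, ← sum_hi] at h3
    have h4 := (abs_le.1 h3).2
    have h5 : (X : ℝ) / p = X * (1 / (p : ℝ)) := by ring
    rw [h5] at h4
    linarith
  have h1 : ∑ p ∈ T, ∑ k ∈ range X, hi {p} k ≤ ∑ p ∈ T, X * (1 / (p : ℝ)) + ∑ p ∈ T, C * (p : ℝ) ^ κ := by
    rw [← Finset.sum_add_distrib]
    exact Finset.sum_le_sum hp
  have h2 : ∑ p ∈ T, C * (p : ℝ) ^ κ ≤ C * X := by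
    rcases T.eq_empty_or_nonempty with h | ⟨q, hq⟩
    · rw [h, Finset.sum_empty]
      positivity
    · have hz3 := (mem_P_le (hTP hq)).1
      have hz0' : (0 : ℝ) < z := by linarith
      have h6 : ∑ p ∈ T, C * (p : ℝ) ^ κ ≤ T.card • (C * z ^ κ) := by
        refine Finset.sum_le_card_nsmul _ _ _ fun p hp => ?_
        refine mul_le_mul_of_nonneg_left ?_ hC.le
        exact Real.rpow_le_rpow (by positivity) (mem_P_le (hTP hp)).2 (by linarith)
      rw [nsmul_eq_mul] at h6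
      have h7 : (T.card : ℝ) ≤ z := by
        have h8 : T ⊆ Finset.Icc 1 ⌊z⌋₊ := by
          intro p hp
          have := mem_P.1 (hTP hp)
          rw [Finset.mem_Icc]
          exact ⟨this.2.1.pos, this.1⟩
        have h9 := Finset.card_le_card h8
        rw [Nat.card_Icc] at h9
        have h10 : (T.card : ℝ) ≤ (⌊z⌋₊ : ℝ) := by
          have : T.card ≤ ⌊z⌋₊ := by omega
          exact_mod_cast this
        exact h10.trans (Nat.floor_le hz0'.le)
      have h11 : z ^ (κ + 1) ≤ X := by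
        have h12 : z ≤ (X : ℝ) ^ θ' := hz.trans (Real.rpow_le_rpow_of_exponent_le hX1 hθθ')
        have h13 := Real.rpow_le_rpow hz0'.le h12 (show 0 ≤ κ + 1 by linarith)
        rwa [← Real.rpow_mul (by linarith), hκθ, Real.rpow_one] at h13
      have h14 : z * z ^ κ = z ^ (κ + 1) := by
        rw [Real.rpow_add hz0', Real.rpow_one, mul_comm]
      calc ∑ p ∈ T, C * (p : ℝ) ^ κ ≤ T.card * (C * z ^ κ) := h6
        _ ≤ z * (C * z ^ κ) := mul_le_mul_of_nonneg_right h7 (by positivity)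
        _ = C * z ^ (κ + 1) := by rw [← h14]; ring
        _ ≤ C * X := mul_le_mul_of_nonneg_left h11 hC.le
  linarith

end Pool.Agent.H1.WN
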