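import Pool.Agent.H1.WN.Tk

set_option autoImplicit false

/-!
# Frames for the normal order of the number of small prime factors of `k 2^k - 1`
-/

namespace Pool.Agent.H1.WN

open Finset Pool.Agent.H5.WD

/-- Mertens for the odd primes (`Pool.Agent.H75.AP.mertens_upper`, `mertens_low`, `PI 0 v`, minus the prime `2`) -/
def MertStmt : Prop := ∃ C : ℝ, 0 < C ∧ ∀ z : ℝ, 3 ≤ z →
  |∑ p ∈ P z, 1 / (p : ℝ) - Real.log (Real.log z)| ≤ C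

/-- first moment of the number of prime factors between `z0` and `z ≤ X^θ`, `θ < 2/3`: sum of
`|sum_k hi {p} k - X / p| ≤ C p^κ` (`lev_half κ`, `1/2 < κ`, `θ (κ + 1) ≤ 1`) over the at most `z` primes `p ≤ z` -/
def FmStmt : Prop := ∀ θ : ℝ, θ < 2 / 3 → ∃ C : ℝ, 0 < C ∧ ∀ (X : ℕ) (z z0 : ℝ), 1 ≤ X → z0 ≤ z →
  z ≤ (X : ℝ) ^ θ →
  ∑ k ∈ range X, (∑ p ∈ P z, hi {p} k - ∑ p ∈ P z0, hi {p} k) ≤
    X * (∑ p ∈ P z, 1 / (p : ℝ) - ∑ p ∈ P z0, 1 / (p : ℝ)) + C * X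

end Pool.Agent.H1.WN
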