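import Pool.Agent.H1.WN.Fr

set_option autoImplicit false

/-!
# Mertens for the odd primes
-/

namespace Pool.Agent.H1.WN

open Finset Pool.Agent.H5.WD Pool.Agent.H75.AP

theorem mert : MertStmt := by
  classical
  obtain ⟨C1, hC1, h1⟩ := mertens_upper
  obtain ⟨C2, hC2, h2⟩ := mertens_low
  refine ⟨C1 + C2 + 1, by positivity, fun z hz => ?_⟩
  have hset : PI 0 z = insert 2 (P z) := by
    ext p
    rw [MertB.mem_PI (by norm_num), Finset.mem_insert, mem_P]
    constructor
    · rintro ⟨h1, _, h3⟩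
      by_cases h4 : p = 2
      · exact Or.inl h4
      · exact Or.inr ⟨Nat.le_floor h3, h1, h4⟩
    · rintro (h | ⟨h1, h2, h3⟩)
      · subst h
        exact ⟨Nat.prime_two, by norm_num, by push_cast; linarith⟩
      · exact ⟨h2, by exact_mod_cast h2.pos, (Nat.le_floor_iff' h2.ne_zero).1 h1⟩
  have h2m : 2 ∉ P z := by
    rw [mem_P]
    rintro ⟨_, _, h⟩
    exact h rfl
  have e : ∑ p ∈ PI 0 z, 1 / (p : ℝ) = 1 / 2 + ∑ p ∈ P z, 1 / (p : ℝ) := by
    rw [hset, Finset.sum_insert h2m]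
    norm_num
  have a1 := h1 z hz
  have a2 := h2 z hz
  rw [e] at a1 a2
  rw [abs_le]
  constructor <;> linarith

end Pool.Agent.H1.WN
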