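import Pool.Agent.H5.WD.Last
import Pool.Agent.H75.AP.MertensB

set_option autoImplicit false

/-!
# Turan-Kubilius inequality for the numbers `k 2^k - 1`
-/

namespace Pool.Agent.H1.WN

open Finset Pool.Agent.H5.WD

theorem cauchy {κ C : ℝ} (hκ : 0 < κ) (hC : 0 < C) (hL : Lev κ C) (T : Finset ℕ)
    (hT : ∀ p ∈ T, p.Prime ∧ p ≠ 2) (X : ℕ) (f : ℕ → ℝ) :
    ∑ k ∈ range X, (∑ p ∈ T, f p * hi {p} k - ∑ p ∈ T, f p / p) ^ 2 ≤
      ∑ p ∈ T, f p ^ 2 * (2 * (X / p) + C * (p : ℝ) ^ κ) +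
        3 * C * (∑ p ∈ T, |f p| * (p : ℝ) ^ κ) ^ 2 := by
  have h1 : ∀ k, (∑ p ∈ T, f p * hi {p} k - ∑ p ∈ T, f p / p) ^ 2 =
      ∑ p ∈ T, ∑ q ∈ T, f p * f q * ((hi {p} k - 1 / p) * (hi {q} k - 1 / q)) := by
    intro k
    rw [← Finset.sum_sub_distrib, pow_two, Finset.sum_mul_sum]
    refine Finset.sum_congr rfl fun p _ => Finset.sum_congr rfl fun q _ => ?_
    ring
  simp only [h1]
  rw [Finset.sum_comm]
  have h2 : ∀ p, ∑ k ∈ range X, ∑ q ∈ T, f p * f q * ((hi {p} k - 1 / p) * (hi {q} k - 1 / q)) =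
      ∑ q ∈ T, f p * f q * ∑ k ∈ range X, (hi {p} k - 1 / p) * (hi {q} k - 1 / q) := by
    intro p
    rw [Finset.sum_comm]
    refine Finset.sum_congr rfl fun q _ => ?_
    rw [Finset.mul_sum]
  simp only [h2]
  have hN : ∀ p ∈ T, |∑ k ∈ range X, hi {p} k - X / p| ≤ C * (p : ℝ) ^ κ := by
    intro p hp
    have h3 := hL {p} (by intro q hq; rw [Finset.mem_singleton] at hq; rw [hq]; exact hT p hp) X
    rw [Finset.prod_singleton, ← sum_hi] at h3
    exact h3
  have hpos : ∀ p ∈ T, (1 : ℝ) ≤ p := fun p hp => by exact_mod_cast (hT p hp).1.one_lt.le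
  have hpk : ∀ p ∈ T, (1 : ℝ) ≤ (p : ℝ) ^ κ := fun p hp => Real.one_le_rpow (hpos p hp) hκ.le
  have hB : ∀ p ∈ T, ∀ q ∈ T, f p * f q * ∑ k ∈ range X, (hi {p} k - 1 / p) * (hi {q} k - 1 / q) ≤
      (if p = q then f p ^ 2 * (2 * (X / p) + C * (p : ℝ) ^ κ) else 0) +
        3 * C * ((|f p| * (p : ℝ) ^ κ) * (|f q| * (q : ℝ) ^ κ)) := by
    intro p hp q hq
    have hp1 := hpos p hp
    have hq1 := hpos q hq
    have hpk1 := hpk p hp
    have hqk1 := hpk q hq
    by_cases hpq : p = q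
    · subst hpq
      rw [if_pos rfl]
      have h4 : ∑ k ∈ range X, (hi {p} k - 1 / p) * (hi {p} k - 1 / p) ≤
          2 * (X / p) + C * (p : ℝ) ^ κ := by
        have h5 : ∀ k ∈ range X, (hi {p} k - 1 / p) * (hi {p} k - 1 / p) ≤
            hi {p} k + 1 / (p : ℝ) := by
          intro k _
          have h6 : (1 : ℝ) / p ≤ 1 := by rw [div_le_one (by linarith)]; exact hp1
          have h7 : (0 : ℝ) ≤ 1 / p := by positivity
          have h8 := hi_nonneg {p} k
          have h9 : hi {p} k * hi {p} k = hi {p} k := by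
            unfold hi; split_ifs <;> norm_num
          nlinarith
        have h10 := Finset.sum_le_sum h5
        rw [Finset.sum_add_distrib, Finset.sum_const, Finset.card_range, nsmul_eq_mul] at h10
        have h11 := (abs_le.1 (hN p hp)).2
        have h12 : (X : ℝ) * (1 / p) = X / p := by ring
        linarith
      have h13 : f p * f p * ∑ k ∈ range X, (hi {p} k - 1 / p) * (hi {p} k - 1 / p) ≤
          f p ^ 2 * (2 * (X / p) + C * (p : ℝ) ^ κ) := by
        rw [← pow_two]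
        exact mul_le_mul_of_nonneg_left h4 (sq_nonneg _)
      have h14 : 0 ≤ 3 * C * ((|f p| * (p : ℝ) ^ κ) * (|f p| * (p : ℝ) ^ κ)) := by positivity
      linarith
    · rw [if_neg hpq, zero_add]
      have h4 : |∑ k ∈ range X, (hi {p} k - 1 / p) * (hi {q} k - 1 / q)| ≤
          3 * C * ((p : ℝ) ^ κ * (q : ℝ) ^ κ) := by
        have hpr : ∀ k, hi {p} k * hi {q} k = hi {p, q} k := by
          intro k
          rw [hi_eq_prod, hi_eq_prod, hi_eq_prod, Finset.prod_singleton, Finset.prod_singleton,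
            Finset.prod_pair hpq]
        have h5 : ∑ k ∈ range X, (hi {p} k - 1 / p) * (hi {q} k - 1 / q) =
            (∑ k ∈ range X, hi {p, q} k - X / (p * q)) -
              (∑ k ∈ range X, hi {p} k - X / p) / q - (∑ k ∈ range X, hi {q} k - X / q) / p := by
          have h6 : ∀ k ∈ range X, (hi {p} k - 1 / p) * (hi {q} k - 1 / q) =
              hi {p, q} k - hi {p} k * (1 / q) - hi {q} k * (1 / p) + 1 / (p * q) := by
            intro k _
            rw [← hpr]
            have : (p : ℝ) ≠ 0 := by linarith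
            have : (q : ℝ) ≠ 0 := by linarith
            field_simp
            ring
          rw [Finset.sum_congr rfl h6, Finset.sum_add_distrib, Finset.sum_sub_distrib,
            Finset.sum_sub_distrib, ← Finset.sum_mul, ← Finset.sum_mul, Finset.sum_const,
            Finset.card_range, nsmul_eq_mul]
          have : (p : ℝ) ≠ 0 := by linarith
          have : (q : ℝ) ≠ 0 := by linarith
          field_simp
          ring
        have h7 : |∑ k ∈ range X, hi {p, q} k - X / (p * q)| ≤ C * ((p : ℝ) ^ κ * (q : ℝ) ^ κ) := by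
          have h8 := hL {p, q} (by
            intro r hr
            rw [Finset.mem_insert, Finset.mem_singleton] at hr
            rcases hr with h | h
            · rw [h]; exact hT p hp
            · rw [h]; exact hT q hq) X
          rw [Finset.prod_pair hpq, ← sum_hi] at h8
          push_cast at h8
          rwa [Real.mul_rpow (by linarith) (by linarith)] at h8
        have h9 : |(∑ k ∈ range X, hi {p} k - X / p) / q| ≤ C * ((p : ℝ) ^ κ * (q : ℝ) ^ κ) := by
          rw [abs_div, abs_of_pos (show (0 : ℝ) < q by linarith), div_le_iff₀ (by linarith)]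
          refine (hN p hp).trans ?_
          have : C * (p : ℝ) ^ κ ≤ C * ((p : ℝ) ^ κ * (q : ℝ) ^ κ) :=
            mul_le_mul_of_nonneg_left (le_mul_of_one_le_right (by linarith) hqk1) hC.le
          exact this.trans (le_mul_of_one_le_right (by positivity) hq1)
        have h10 : |(∑ k ∈ range X, hi {q} k - X / q) / p| ≤ C * ((p : ℝ) ^ κ * (q : ℝ) ^ κ) := by
          rw [abs_div, abs_of_pos (show (0 : ℝ) < p by linarith), div_le_iff₀ (by linarith)]
          refine (hN q hq).trans ?_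
          have : C * (q : ℝ) ^ κ ≤ C * ((p : ℝ) ^ κ * (q : ℝ) ^ κ) :=
            mul_le_mul_of_nonneg_left (le_mul_of_one_le_left (by linarith) hpk1) hC.le
          exact this.trans (le_mul_of_one_le_right (by positivity) hp1)
        rw [h5]
        rw [abs_le] at h7 h9 h10 ⊢
        constructor <;> linarith [h7.1, h7.2, h9.1, h9.2, h10.1, h10.2]
      calc f p * f q * ∑ k ∈ range X, (hi {p} k - 1 / p) * (hi {q} k - 1 / q)
          ≤ |f p * f q * ∑ k ∈ range X, (hi {p} k - 1 / p) * (hi {q} k - 1 / q)| := le_abs_self _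
        _ = |f p| * |f q| * |∑ k ∈ range X, (hi {p} k - 1 / p) * (hi {q} k - 1 / q)| := by
          rw [abs_mul, abs_mul]
        _ ≤ |f p| * |f q| * (3 * C * ((p : ℝ) ^ κ * (q : ℝ) ^ κ)) :=
          mul_le_mul_of_nonneg_left h4 (by positivity)
        _ = 3 * C * ((|f p| * (p : ℝ) ^ κ) * (|f q| * (q : ℝ) ^ κ)) := by ring
  refine (Finset.sum_le_sum fun p hp => Finset.sum_le_sum fun q hq => hB p hp q hq).trans ?_
  simp only [Finset.sum_add_distrib]
  refine add_le_add ?_ ?_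
  · refine le_of_eq (Finset.sum_congr rfl fun p hp => ?_)
    rw [Finset.sum_ite_eq, if_pos hp]
  · rw [pow_two, Finset.sum_mul_sum, Finset.mul_sum]
    refine le_of_eq (Finset.sum_congr rfl fun p _ => ?_)
    rw [Finset.mul_sum]

/-- the odd primes up to `z` -/
noncomputable def P (z : ℝ) : Finset ℕ := (range (⌊z⌋₊ + 1)).filter fun p => p.Prime ∧ p ≠ 2

theorem mem_P {z : ℝ} {p : ℕ} : p ∈ P z ↔ p ≤ ⌊z⌋₊ ∧ p.Prime ∧ p ≠ 2 := by
  rw [P, mem_filter, mem_range, Nat.lt_succ_iff]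

theorem mem_P_le {z : ℝ} {p : ℕ} (h : p ∈ P z) : (3 : ℝ) ≤ z ∧ (p : ℝ) ≤ z := by
  rw [mem_P] at h
  have h3 : 3 ≤ p := by
    have := h.2.1.two_le
    have := h.2.2
    omega
  have hz : (p : ℝ) ≤ z := by
    have h0 : 0 < ⌊z⌋₊ := by omega
    exact (Nat.le_floor_iff' (by omega)).1 h.1
  exact ⟨le_trans (by exact_mod_cast h3) hz, hz⟩

theorem tk (θ : ℝ) (hθ : θ < 1 / 3) : ∃ C : ℝ, 0 < C ∧ ∀ (X : ℕ) (z : ℝ), 1 ≤ X → z ≤ (X : ℝ) ^ θ →
    ∀ f : ℕ → ℝ, ∑ k ∈ range X, (∑ p ∈ P z, f p * hi {p} k - ∑ p ∈ P z, f p / p) ^ 2 ≤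
      C * X * ∑ p ∈ P z, f p ^ 2 / p := by
  obtain ⟨θ', hθ0, hθ1, hθ2⟩ : ∃ θ' : ℝ, 0 < θ' ∧ θ ≤ θ' ∧ θ' < 1 / 3 :=
    ⟨max θ (1 / 6), lt_of_lt_of_le (by norm_num) (le_max_right _ _), le_max_left _ _,
      max_lt hθ (by norm_num)⟩
  -- `κ` with `θ' (2 κ + 2) = 1`
  obtain ⟨κ, hκ, hκθ⟩ : ∃ κ : ℝ, 1 / 2 < κ ∧ θ' * (2 * κ + 2) = 1 := by
    refine ⟨(1 / θ' - 2) / 2, ?_, ?_⟩
    · have : 3 < 1 / θ' := by
        rw [lt_div_iff₀ hθ0]
        linarith
      linarith
    · field_simp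
      ring
  obtain ⟨C, hC, hL⟩ := lev_half κ hκ
  refine ⟨2 + C + 3 * C, by positivity, ?_⟩
  intro X z hX hz f
  have hX1 : (1 : ℝ) ≤ X := by exact_mod_cast hX
  have hz' : z ≤ (X : ℝ) ^ θ' := hz.trans (Real.rpow_le_rpow_of_exponent_le hX1 hθ1)
  refine (cauchy (by linarith) hC hL (P z) (fun p hp => (mem_P.1 hp).2) X f).trans ?_
  -- `z ^ (2 κ + 2) ≤ X`
  have hzX : ∀ p ∈ P z, 1 ≤ z ∧ z ^ (2 * κ + 2) ≤ X := by
    intro p hp
    have h3 := (mem_P_le hp).1
    refine ⟨by linarith, ?_⟩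
    calc z ^ (2 * κ + 2) ≤ ((X : ℝ) ^ θ') ^ (2 * κ + 2) :=
          Real.rpow_le_rpow (by linarith) hz' (by linarith)
      _ = X := by rw [← Real.rpow_mul (by linarith), hκθ, Real.rpow_one]
  have hA : ∑ p ∈ P z, f p ^ 2 * (2 * (X / p) + C * (p : ℝ) ^ κ) ≤
      (2 + C) * X * ∑ p ∈ P z, f p ^ 2 / p := by
    rw [Finset.mul_sum]
    refine Finset.sum_le_sum fun p hp => ?_
    obtain ⟨hz1, hzX'⟩ := hzX p hp
    have hpz := (mem_P_le hp).2
    have hp0 : (0 : ℝ) < p := by exact_mod_cast (mem_P.1 hp).2.1.pos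
    have h4 : (p : ℝ) ^ κ * p ≤ X := by
      calc (p : ℝ) ^ κ * p = (p : ℝ) ^ (κ + 1) := by
            rw [Real.rpow_add hp0, Real.rpow_one]
        _ ≤ z ^ (κ + 1) := Real.rpow_le_rpow hp0.le hpz (by linarith)
        _ ≤ z ^ (2 * κ + 2) := Real.rpow_le_rpow_of_exponent_le hz1 (by linarith)
        _ ≤ X := hzX'
    have h5 : (p : ℝ) ^ κ ≤ X / p := by
      rw [le_div_iff₀ hp0]
      exact h4
    have h6 : 2 * ((X : ℝ) / p) + C * (p : ℝ) ^ κ ≤ (2 + C) * (X / p) := by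
      have := mul_le_mul_of_nonneg_left h5 hC.le
      linarith
    calc f p ^ 2 * (2 * (X / p) + C * (p : ℝ) ^ κ) ≤ f p ^ 2 * ((2 + C) * (X / p)) :=
          mul_le_mul_of_nonneg_left h6 (sq_nonneg _)
      _ = (2 + C) * X * (f p ^ 2 / p) := by ring
  have hB : (∑ p ∈ P z, |f p| * (p : ℝ) ^ κ) ^ 2 ≤ X * ∑ p ∈ P z, f p ^ 2 / p := by
    have h4 := Finset.sum_mul_sq_le_sq_mul_sq (P z) (fun p => |f p| / Real.sqrt p)
      (fun p => Real.sqrt p * (p : ℝ) ^ κ)
    have h5 : ∑ p ∈ P z, |f p| / Real.sqrt p * (Real.sqrt p * (p : ℝ) ^ κ) =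
        ∑ p ∈ P z, |f p| * (p : ℝ) ^ κ := by
      refine Finset.sum_congr rfl fun p hp => ?_
      have hp0 : (0 : ℝ) < p := by exact_mod_cast (mem_P.1 hp).2.1.pos
      have : Real.sqrt p ≠ 0 := (Real.sqrt_pos.2 hp0).ne'
      field_simp
    have h6 : ∑ p ∈ P z, (|f p| / Real.sqrt p) ^ 2 = ∑ p ∈ P z, f p ^ 2 / p := by
      refine Finset.sum_congr rfl fun p hp => ?_
      rw [div_pow, sq_abs, Real.sq_sqrt (Nat.cast_nonneg p)]
    have h7 : ∑ p ∈ P z, (Real.sqrt p * (p : ℝ) ^ κ) ^ 2 ≤ X := by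
      rcases (P z).eq_empty_or_nonempty with he | ⟨p0, hp0⟩
      · rw [he, Finset.sum_empty]
        linarith
      · obtain ⟨hz1, hzX'⟩ := hzX p0 hp0
        have h8 : ∀ p ∈ P z, (Real.sqrt p * (p : ℝ) ^ κ) ^ 2 ≤ z ^ (2 * κ + 1) := by
          intro p hp
          have hpz := (mem_P_le hp).2
          have hp0 : (0 : ℝ) < p := by exact_mod_cast (mem_P.1 hp).2.1.pos
          rw [mul_pow, Real.sq_sqrt hp0.le]
          have h9 : ((p : ℝ) ^ κ) ^ 2 = (p : ℝ) ^ (2 * κ) := by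
            rw [← Real.rpow_natCast, ← Real.rpow_mul hp0.le]
            congr 1
            push_cast
            ring
          rw [h9]
          calc (p : ℝ) * (p : ℝ) ^ (2 * κ) = (p : ℝ) ^ (2 * κ + 1) := by
                rw [Real.rpow_add hp0, Real.rpow_one]
                ring
            _ ≤ z ^ (2 * κ + 1) := Real.rpow_le_rpow hp0.le hpz (by linarith)
        have h10 := Finset.sum_le_card_nsmul _ _ _ h8
        rw [nsmul_eq_mul] at h10
        have h11 : ((P z).card : ℝ) ≤ z := by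
          have h12 : (P z).card ≤ ⌊z⌋₊ := by
            have h13 : P z ⊆ Finset.Ioc 0 ⌊z⌋₊ := by
              intro p hp
              rw [mem_P] at hp
              rw [Finset.mem_Ioc]
              exact ⟨hp.2.1.pos, hp.1⟩
            have := Finset.card_le_card h13
            rwa [Nat.card_Ioc, Nat.sub_zero] at this
          exact (Nat.cast_le.2 h12).trans (Nat.floor_le (by linarith))
        refine h10.trans ?_
        calc ((P z).card : ℝ) * z ^ (2 * κ + 1) ≤ z * z ^ (2 * κ + 1) :=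
              mul_le_mul_of_nonneg_right h11 (Real.rpow_nonneg (by linarith) _)
          _ = z ^ (2 * κ + 2) := by
              have h14 : z ^ (2 * κ + 2) = z ^ (1 : ℝ) * z ^ (2 * κ + 1) := by
                rw [← Real.rpow_add (by linarith)]
                congr 1
                ring
              rw [h14, Real.rpow_one]
          _ ≤ X := hzX'
    rw [h5, h6] at h4
    refine h4.trans ?_
    rw [mul_comm]
    exact mul_le_mul_of_nonneg_right h7 (Finset.sum_nonneg fun p _ => by positivity)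
  have hB' := mul_le_mul_of_nonneg_left hB (show 0 ≤ 3 * C by positivity)
  calc _ ≤ (2 + C) * X * ∑ p ∈ P z, f p ^ 2 / p + 3 * C * (X * ∑ p ∈ P z, f p ^ 2 / p) :=
        add_le_add hA hB'
    _ = (2 + C + 3 * C) * X * ∑ p ∈ P z, f p ^ 2 / p := by ring

end Pool.Agent.H1.WN
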